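import Pool.Agent.AT12.Stmts3

/-!
# Squad AT12, row BE2 (helper13): Bessel's inequality for the fixed characters
-/

set_option autoImplicit false

open scoped BigOperators

noncomputable section

namespace Pool.Agent.PP.T12.H13

open Pool.Agent.Helper51_AWC Pool.Agent.Helper79_WRA Pool.Agent.PP Pool.Agent.PP.KF
open Pool.Agent.PP.K9 Pool.Agent.PP.K9.H97 Pool.Agent.PP.H75 Pool.Agent.PP.T3 Pool.Agent.PP.T2
open Pool.Agent.PP.T8

attribute [local instance] Ideal.Quotient.field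

section inner

variable {X : Type} (S : Finset X)

/-- the inner product -/
def P (f f' : X → ℂ) : ℂ := ∑ χ ∈ S, f χ * starRingEnd ℂ (f' χ)

theorem P_conj (f f' : X → ℂ) : starRingEnd ℂ (P S f f') = P S f' f := by
  unfold P
  rw [map_sum]
  refine Finset.sum_congr rfl fun χ _ => ?_
  rw [map_mul, Complex.conj_conj, mul_comm]

theorem P_symm0 {f f' : X → ℂ} (h : P S f f' = 0) : P S f' f = 0 := by
  rw [← P_conj, h, map_zero]

theorem P_add (f₁ f₂ f' : X → ℂ) : P S (fun χ => f₁ χ + f₂ χ) f' = P S f₁ f' + P S f₂ f' := by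
  unfold P
  rw [← Finset.sum_add_distrib]
  exact Finset.sum_congr rfl fun χ _ => by ring

theorem P_add' (f f₁ f₂ : X → ℂ) : P S f (fun χ => f₁ χ + f₂ χ) = P S f f₁ + P S f f₂ := by
  unfold P
  rw [← Finset.sum_add_distrib]
  exact Finset.sum_congr rfl fun χ _ => by rw [map_add]; ring

theorem P_sub (f₁ f₂ f' : X → ℂ) : P S (fun χ => f₁ χ - f₂ χ) f' = P S f₁ f' - P S f₂ f' := by
  unfold P
  rw [← Finset.sum_sub_distrib]
  exact Finset.sum_congr rfl fun χ _ => by ring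

theorem P_sub' (f f₁ f₂ : X → ℂ) : P S f (fun χ => f₁ χ - f₂ χ) = P S f f₁ - P S f f₂ := by
  unfold P
  rw [← Finset.sum_sub_distrib]
  exact Finset.sum_congr rfl fun χ _ => by rw [map_sub]; ring

theorem P_mul (a : ℂ) (f f' : X → ℂ) : P S (fun χ => a * f χ) f' = a * P S f f' := by
  unfold P
  rw [Finset.mul_sum]
  exact Finset.sum_congr rfl fun χ _ => by ring

theorem P_mul' (a : ℂ) (f f' : X → ℂ) :
    P S f (fun χ => a * f' χ) = starRingEnd ℂ a * P S f f' := by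
  unfold P
  rw [Finset.mul_sum]
  exact Finset.sum_congr rfl fun χ _ => by rw [map_mul]; ring

theorem P_sum {κ : Type} (T : Finset κ) (f : κ → X → ℂ) (f' : X → ℂ) :
    P S (fun χ => ∑ k ∈ T, f k χ) f' = ∑ k ∈ T, P S (f k) f' := by
  unfold P
  rw [Finset.sum_comm]
  exact Finset.sum_congr rfl fun χ _ => by rw [Finset.sum_mul]

theorem P_sum' {κ : Type} (T : Finset κ) (f : X → ℂ) (f' : κ → X → ℂ) :
    P S f (fun χ => ∑ k ∈ T, f' k χ) = ∑ k ∈ T, P S f (f' k) := by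
  unfold P
  rw [Finset.sum_comm]
  exact Finset.sum_congr rfl fun χ _ => by rw [map_sum, Finset.mul_sum]

end inner

/-- the order of the image of `V` -/
theorem card_W {ℓ : ℕ} [Fact ℓ.Prime] {G H : Type} [Group G] [Finite G] [Group H] [Finite H]
    {V : Subgroup G} (hab : ∀ a ∈ V, ∀ b ∈ V, a * b = b * a) {y : G} (hy : y ∈ V)
    {q : ℕ} {π : Cu y →* H} (hq : C2.Qn q y π) :
    Nat.card V = Nat.card ((V.subgroupOf (Cu y)).map π) * q := by
  have hle : V ≤ Cu y := by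
    intro v hv
    exact Subgroup.mem_centralizer_singleton_iff.2 (hab v hv y hy)
  have h1 : Nat.card (V.subgroupOf (Cu y)) = Nat.card V :=
    Nat.card_congr (Subgroup.subgroupOfEquivOfLe hle).toEquiv
  have h2 := Subgroup.card_eq_card_quotient_mul_card_subgroup
    (π.subgroupMap (V.subgroupOf (Cu y))).ker
  have h3 : Nat.card (V.subgroupOf (Cu y) ⧸ (π.subgroupMap (V.subgroupOf (Cu y))).ker) =
      Nat.card ((V.subgroupOf (Cu y)).map π) :=
    Nat.card_congr (QuotientGroup.quotientKerEquivOfSurjective _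
      (π.subgroupMap_surjective (V.subgroupOf (Cu y)))).toEquiv
  have h4 : Nat.card (π.subgroupMap (V.subgroupOf (Cu y))).ker = q := by
    rw [← hq.ord, ← Nat.card_zpowers]
    refine Nat.card_congr
      { toFun := fun x => ⟨((x : V.subgroupOf (Cu y)) : Cu y), ?_⟩
        invFun := fun x => ⟨⟨⟨x, hle ((Subgroup.zpowers_le.2 hy) x.2)⟩, ?_⟩, ?_⟩
        left_inv := fun x => ?_
        right_inv := fun x => ?_ }
    · have h5 := x.2
      rw [MonoidHom.mem_ker] at h5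
      exact (hq.ker _).1 (congrArg Subtype.val h5)
    · rw [Subgroup.mem_subgroupOf]
      exact (Subgroup.zpowers_le.2 hy) x.2
    · rw [MonoidHom.mem_ker]
      exact Subtype.ext ((hq.ker _).2 x.2)
    · rfl
    · rfl
  rw [← h1, h2, h3, h4]

theorem be2 (bsf : BsfStmt) (grm : GrmStmt) (avn : AvnStmt) (crg : CrgStmt) (dpw : T8.DpwStmt) :
    Be2Stmt := by
  intro ℓ hℓ M _ hM G H _ _ _ _ N e V γ b d c ε y w β π m K g θ hS j hj
  classical
  have hp : ℓ.Prime := hℓ.out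
  have hF : GoodF ℓ (FF M) := H50.fld ℓ hp M hM
  have := Fintype.ofFinite G
  have hI : (Irr G).Finite := irr_finite'
  obtain ⟨S, hSe⟩ : ∃ S : Finset (G → ℂ), S = hI.toFinset := ⟨_, rfl⟩
  have hℓ0 : (ℓ : ℂ) ≠ 0 := by exact_mod_cast hp.ne_zero
  have hℓp : (0 : ℝ) < ℓ := by exact_mod_cast hp.pos
  have hmK : (m : ℂ) * K + 1 = (ℓ : ℂ) ^ 2 := by
    have h1 := card_W (ℓ := ℓ) hS.dat.ld.ab hS.cs.yV hS.sy.qn
    rw [hS.cs.card, ← hS.sy.cd.mul] at h1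
    have h2 : m * K + 1 = ℓ ^ 2 := by
      have h3 : (m * K + 1) * ℓ ^ 2 = ℓ ^ 2 * ℓ ^ 2 := by rw [← h1]; ring
      exact Nat.eq_of_mul_eq_mul_right (pow_pos hp.pos 2) h3
    exact_mod_cast h2
  have hθ2 : (θ : ℂ) * θ = 1 := by
    rcases hS.sgn with h | h <;> rw [h] <;> norm_num
  have hθc : starRingEnd ℂ (θ : ℂ) = θ := map_intCast (starRingEnd ℂ) θ
  obtain ⟨hc1, hc2, hc3⟩ := crg ℓ (FF M) hF hS.odd G e V γ hS.dat.ld y w m hS.cs
  -- the vectors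
  obtain ⟨A, hA⟩ : ∃ A : ℕ → Fin m → (G → ℂ) → ℂ, ∀ j s χ, A j s χ = Av ℓ π (y ^ j) (g s) χ :=
    ⟨_, fun _ _ _ => rfl⟩
  obtain ⟨U, hU⟩ : ∃ U : ℕ → ℕ → (G → ℂ) → ℂ, ∀ j k χ, U j k χ = vk M ℓ b d ε y w j k χ :=
    ⟨_, fun _ _ _ => rfl⟩
  obtain ⟨B, hB⟩ : ∃ B : ℕ → (G → ℂ) → ℂ, ∀ j, B j = fun χ => ∑ s, A j s χ :=
    ⟨_, fun _ => rfl⟩
  obtain ⟨Q, hQ⟩ : ∃ Q : ℕ → (G → ℂ) → ℂ, ∀ j, Q j = fun χ => ∑ k ∈ Finset.Ico 1 ℓ, U j k χ :=
    ⟨_, fun _ => rfl⟩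
  have hP : ∀ f f' : (G → ℂ) → ℂ, ∑ᶠ χ ∈ Irr G, f χ * starRingEnd ℂ (f' χ) = P S f f' := by
    intro f f'
    rw [finsum_mem_eq_finite_toFinset_sum _ hI, hSe]
    rfl
  -- the Gram matrix
  have hmod : ∀ j j' : ℕ, ¬ ℓ ∣ j → j ≡ j' [MOD ℓ] → ¬ ℓ ∣ j' := by
    intro j j' h1 h2 h3
    exact h1 ((h2.dvd_iff dvd_rfl).2 h3)
  have gAA : ∀ j j' : ℕ, ¬ ℓ ∣ j → j ≡ j' [MOD ℓ] → ∀ s s', P S (A j s) (A j' s') =
      if j ≡ j' [MOD ℓ ^ 2] then (ℓ : ℂ) ^ 2 * ((if s = s' then 1 else 0) + K) else 0 := by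
    intro j j' h1 h2 s s'
    rw [← hP]
    simp only [hA]
    have h3 := (grm ℓ M hM G H N e V γ b d c ε y w β π m K g θ hS j j' h1 h2).1 s s'
    by_cases h4 : j ≡ j' [MOD ℓ ^ 2]
    · rw [if_pos h4]
      exact h3.1 h4
    · rw [if_neg h4]
      exact h3.2 h4
  have gAU : ∀ j j' : ℕ, ¬ ℓ ∣ j → j ≡ j' [MOD ℓ] → ∀ s k, ¬ ℓ ∣ k → P S (A j s) (U j' k) = 0 := by
    intro j j' h1 h2 s k hk
    rw [← hP]
    simp only [hA, hU]
    exact (grm ℓ M hM G H N e V γ b d c ε y w β π m K g θ hS j j' h1 h2).2.1 s k hk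
  have gUU : ∀ j j' : ℕ, ¬ ℓ ∣ j → j ≡ j' [MOD ℓ] → ∀ k k', ¬ ℓ ∣ k → ¬ ℓ ∣ k' →
      P S (U j k) (U j' k') = if (j ≡ j' [MOD ℓ ^ 2] ∧ ∃ t ∈ Tg V γ,
        t * (y ^ j * w ^ (ℓ * k)) * t⁻¹ = y ^ j * w ^ (ℓ * k')) then (ℓ : ℂ) ^ 4 else 0 := by
    intro j j' h1 h2 k k' hk hk'
    rw [← hP]
    simp only [hU]
    have h3 := (grm ℓ M hM G H N e V γ b d c ε y w β π m K g θ hS j j' h1 h2).2.2 k k' hk hk'
    by_cases h4 : (j ≡ j' [MOD ℓ ^ 2] ∧ ∃ t ∈ Tg V γ,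
        t * (y ^ j * w ^ (ℓ * k)) * t⁻¹ = y ^ j * w ^ (ℓ * k'))
    · rw [if_pos h4]
      exact h3.1 h4
    · rw [if_neg h4]
      exact h3.2 h4
  have gBU : ∀ j j' : ℕ, ¬ ℓ ∣ j → j ≡ j' [MOD ℓ] → ∀ k, ¬ ℓ ∣ k → P S (B j) (U j' k) = 0 := by
    intro j j' h1 h2 k hk
    rw [hB, P_sum]
    exact Finset.sum_eq_zero fun s _ => gAU j j' h1 h2 s k hk
  have hIco : ∀ k ∈ Finset.Ico 1 ℓ, ¬ ℓ ∣ k := by
    intro k hk hd
    rw [Finset.mem_Ico] at hk
    have := Nat.le_of_dvd (by omega) hd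
    omega
  have gBQ : ∀ j j' : ℕ, ¬ ℓ ∣ j → j ≡ j' [MOD ℓ] → P S (B j) (Q j') = 0 := by
    intro j j' h1 h2
    rw [hQ, P_sum']
    exact Finset.sum_eq_zero fun k hk => gBU j j' h1 h2 k (hIco k hk)
  have gBB : ∀ j j' : ℕ, ¬ ℓ ∣ j → j ≡ j' [MOD ℓ] → P S (B j) (B j') =
      if j ≡ j' [MOD ℓ ^ 2] then (m : ℂ) * (ℓ : ℂ) ^ 4 else 0 := by
    intro j j' h1 h2
    rw [hB, hB, P_sum]
    simp only [P_sum', gAA j j' h1 h2]
    by_cases h4 : j ≡ j' [MOD ℓ ^ 2]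
    · simp only [if_pos h4]
      have h5 : ∀ s : Fin m, ∑ s' : Fin m, (ℓ : ℂ) ^ 2 * ((if s = s' then 1 else 0) + (K : ℂ)) =
          (ℓ : ℂ) ^ 4 := by
        intro s
        rw [← Finset.mul_sum, Finset.sum_add_distrib, Finset.sum_ite_eq, if_pos (Finset.mem_univ s),
          Finset.sum_const, Finset.card_univ, Fintype.card_fin, nsmul_eq_mul, add_comm, hmK]
        ring
      rw [Finset.sum_congr rfl fun s _ => h5 s, Finset.sum_const, Finset.card_univ,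
        Fintype.card_fin, nsmul_eq_mul]
    · simp only [if_neg h4, Finset.sum_const_zero]
  have gQQ : ∀ j j' : ℕ, ¬ ℓ ∣ j → j ≡ j' [MOD ℓ] → P S (Q j) (Q j') =
      if j ≡ j' [MOD ℓ ^ 2] then ((ℓ : ℂ) - 1) * (m * (ℓ : ℂ) ^ 4) else 0 := by
    intro j j' h1 h2
    rw [hQ, hQ, P_sum]
    simp only [P_sum']
    by_cases h4 : j ≡ j' [MOD ℓ ^ 2]
    · rw [if_pos h4]
      have h5 : ∀ k ∈ Finset.Ico 1 ℓ, ∑ k' ∈ Finset.Ico 1 ℓ, P S (U j k) (U j' k') =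
          m * (ℓ : ℂ) ^ 4 := by
        intro k hk
        have h6 : ∀ k' ∈ Finset.Ico 1 ℓ, P S (U j k) (U j' k') =
            if (∃ t ∈ Tg V γ, t * (y ^ j * w ^ (ℓ * k)) * t⁻¹ = y ^ j * w ^ (ℓ * k'))
              then (ℓ : ℂ) ^ 4 else 0 := by
          intro k' hk'
          rw [gUU j j' h1 h2 k k' (hIco k hk) (hIco k' hk')]
          simp only [h4, true_and]
        rw [Finset.sum_congr rfl h6, ← Finset.sum_filter, Finset.sum_const, nsmul_eq_mul]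
        congr 1
        have h7 := hc3 j k h1 (hIco k hk)
        rw [← h7]
        have h8 : {k' : ℕ | 1 ≤ k' ∧ k' < ℓ ∧ ∃ t ∈ Tg V γ,
            t * (y ^ j * w ^ (ℓ * k)) * t⁻¹ = y ^ j * w ^ (ℓ * k')} =
            (((Finset.Ico 1 ℓ).filter fun k' => ∃ t ∈ Tg V γ,
              t * (y ^ j * w ^ (ℓ * k)) * t⁻¹ = y ^ j * w ^ (ℓ * k') : Finset ℕ) : Set ℕ) := by
          ext k'
          simp only [Set.mem_ofPred_eq, Finset.coe_filter, Finset.mem_Ico, and_assoc]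
        rw [h8, Set.ncard_coe_finset]
      rw [Finset.sum_congr rfl h5, Finset.sum_const, Nat.card_Ico, nsmul_eq_mul,
        Nat.cast_sub hp.one_lt.le, Nat.cast_one]
    · rw [if_neg h4]
      refine Finset.sum_eq_zero fun k hk => Finset.sum_eq_zero fun k' hk' => ?_
      rw [gUU j j' h1 h2 k k' (hIco k hk) (hIco k' hk'), if_neg (fun h => h4 h.1)]
  -- the numbers `j + ℓ i`
  have hji : ∀ i : ℕ, ¬ ℓ ∣ j + ℓ * i := fun i h =>
    hj ((Nat.dvd_add_left (Dvd.intro i rfl)).1 h)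
  have hjj : ∀ i i' : ℕ, j + ℓ * i ≡ j + ℓ * i' [MOD ℓ] := by
    intro i i'
    refine Nat.ModEq.add_left j ?_
    exact ((Nat.modEq_zero_iff_dvd.2 (Dvd.intro i rfl)).trans
      (Nat.modEq_zero_iff_dvd.2 (Dvd.intro i' rfl)).symm)
  have hj0 : ∀ i : ℕ, j ≡ j + ℓ * i [MOD ℓ] := fun i => by
    have := hjj 0 i
    simpa only [mul_zero, add_zero] using this
  have hne : ∀ i < ℓ, ∀ i' < ℓ, i ≠ i' → ¬ j + ℓ * i ≡ j + ℓ * i' [MOD ℓ ^ 2] := by
    intro i hi i' hi' hii h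
    have h1 : ℓ * i ≡ ℓ * i' [MOD ℓ * ℓ] := by
      rw [← pow_two]
      exact Nat.ModEq.add_left_cancel' j h
    have h2 : i ≡ i' [MOD ℓ] := Nat.ModEq.mul_left_cancel' hp.ne_zero h1
    exact hii (Nat.ModEq.eq_of_lt_of_lt h2 hi hi')
  have hRI : Rf M N e ⊆ Irr G := fun χ hχ => hχ.1.1
  have hRf : (Rf M N e).Finite := hI.subset hRI
  -- the values at the fixed characters
  have hfix := avn ℓ M hM G H N e V γ b d c ε y w β π m K g θ hS
  have fA : ∀ χ ∈ Rf M N e, ∀ i s, A (j + ℓ * i) s χ = A j s χ := by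
    intro χ hχ i s
    rw [hA, hA]
    exact ((hfix χ hχ j (j + ℓ * i) hj (hj0 i)).1 (g s)).symm
  have fU : ∀ χ ∈ Rf M N e, ∀ i k, ¬ ℓ ∣ k → U (j + ℓ * i) k χ = U j k χ := by
    intro χ hχ i k hk
    rw [hU, hU]
    exact ((hfix χ hχ j (j + ℓ * i) hj (hj0 i)).2 k hk).symm
  have fB : ∀ χ ∈ Rf M N e, ∀ i, B (j + ℓ * i) χ = B j χ := by
    intro χ hχ i
    rw [hB, hB]
    exact Finset.sum_congr rfl fun s _ => fA χ hχ i s
  have fQ : ∀ χ ∈ Rf M N e, ∀ i, Q (j + ℓ * i) χ = Q j χ := by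
    intro χ hχ i
    rw [hQ, hQ]
    exact Finset.sum_congr rfl fun k hk => fU χ hχ i k (hIco k hk)
  -- Bessel
  have hbes : ∀ (v : ℕ → (G → ℂ) → ℂ) (c' : ℝ),
      (∀ i < ℓ, ∀ i' < ℓ, i ≠ i' → P S (v i) (v i') = 0) →
      (∀ i < ℓ, P S (v i) (v i) = ((ℓ * c' : ℝ) : ℂ)) →
      (∀ i < ℓ, ∀ χ ∈ Rf M N e, v i χ = v 0 χ) →
      ∑ᶠ χ ∈ Rf M N e, Complex.normSq (v 0 χ) ≤ c' := by
    intro v c' h1 h2 h3
    have h4 := bsf G (Rf M N e) hRI ℓ v (ℓ * c') hp.pos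
      (fun i hi i' hi' hii => by rw [hP]; exact h1 i hi i' hi' hii)
      (fun i hi => by rw [hP]; exact h2 i hi) h3
    exact le_of_mul_le_mul_left h4 hℓp
  refine ⟨?_, ?_, ?_, ?_⟩
  · intro s s' hss
    have h := hbes (fun i χ => A (j + ℓ * i) s χ - A (j + ℓ * i) s' χ) (2 * ℓ) ?_ ?_ ?_
    · simp only [mul_zero, add_zero, hA] at h
      exact h
    · intro i hi i' hi' hii
      rw [P_sub, P_sub', P_sub']
      simp only [gAA _ _ (hji i) (hjj i i'), if_neg (hne i hi i' hi' hii)]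
      ring
    · intro i hi
      rw [P_sub, P_sub', P_sub']
      simp only [gAA _ _ (hji i) (hjj i i), if_pos (Nat.ModEq.refl _), if_true, if_neg hss,
        if_neg (Ne.symm hss)]
      push_cast
      ring
    · intro i _ χ hχ
      simp only [mul_zero, add_zero]
      rw [fA χ hχ, fA χ hχ]
  · have h := hbes (fun i χ => θ * B (j + ℓ * i) χ + Q (j + ℓ * i) χ) (m * ℓ ^ 4) ?_ ?_ ?_
    · simp only [mul_zero, add_zero] at h
      have h5 : ∀ χ, Complex.normSq (θ * B j χ + Q j χ) =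
          (ℓ : ℝ) ^ 2 * Complex.normSq (aa M ℓ b d ε y w π g θ j χ) := by
        intro χ
        have h6 : θ * B j χ + Q j χ = (ℓ : ℂ) * aa M ℓ b d ε y w π g θ j χ := by
          unfold aa bq
          rw [mul_inv_cancel_left₀ hℓ0, hB, hQ]
          simp only [hA, hU]
        rw [h6, map_mul, Complex.normSq_natCast]
        ring
      simp only [h5] at h
      rw [finsum_mem_eq_finite_toFinset_sum _ hRf, ← Finset.mul_sum] at h
      rw [finsum_mem_eq_finite_toFinset_sum _ hRf]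
      have h7 : (0 : ℝ) < (ℓ : ℝ) ^ 2 := pow_pos hℓp 2
      refine le_of_mul_le_mul_left (h.trans (le_of_eq ?_)) h7
      ring
    · intro i hi i' hi' hii
      rw [P_add, P_add', P_add', P_mul, P_mul, P_mul', P_mul', gBB _ _ (hji i) (hjj i i'),
        gQQ _ _ (hji i) (hjj i i'), gBQ _ _ (hji i) (hjj i i'),
        P_symm0 S (gBQ _ _ (hji i') (hjj i' i)), if_neg (hne i hi i' hi' hii),
        if_neg (hne i hi i' hi' hii)]
      ring
    · intro i hi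
      rw [P_add, P_add', P_add', P_mul, P_mul, P_mul', P_mul', gBB _ _ (hji i) (hjj i i),
        gQQ _ _ (hji i) (hjj i i), gBQ _ _ (hji i) (hjj i i),
        P_symm0 S (gBQ _ _ (hji i) (hjj i i)), if_pos (Nat.ModEq.refl _),
        if_pos (Nat.ModEq.refl _), hθc, ← mul_assoc, hθ2]
      push_cast
      ring
    · intro i _ χ hχ
      simp only [mul_zero, add_zero]
      rw [fB χ hχ, fQ χ hχ]
  · intro k hk
    have h := hbes (fun i χ => U (j + ℓ * i) k χ) (ℓ ^ 3) ?_ ?_ ?_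
    · simp only [mul_zero, add_zero, hU] at h
      exact h
    · intro i hi i' hi' hii
      rw [gUU _ _ (hji i) (hjj i i') k k hk hk, if_neg (fun h => hne i hi i' hi' hii h.1)]
    · intro i hi
      rw [gUU _ _ (hji i) (hjj i i) k k hk hk, if_pos ⟨Nat.ModEq.refl _, 1, Subgroup.one_mem _,
        by rw [one_mul, inv_one, mul_one]⟩]
      push_cast
      ring
    · intro i _ χ hχ
      simp only [mul_zero, add_zero]
      exact fU χ hχ i k hk
  · intro hm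
    -- all the numbers `U j k χ` are equal
    have hconj : ∀ k ∈ Finset.Ico 1 ℓ, ∃ t ∈ Tg V γ,
        t * (y ^ j * w ^ (ℓ * j)) * t⁻¹ = y ^ j * w ^ (ℓ * k) := by
      intro k hk
      have h1 := hc3 j j hj hj
      have h2 : {k' : ℕ | 1 ≤ k' ∧ k' < ℓ ∧ ∃ t ∈ Tg V γ,
          t * (y ^ j * w ^ (ℓ * j)) * t⁻¹ = y ^ j * w ^ (ℓ * k')} ⊆
          ((Finset.Ico 1 ℓ : Finset ℕ) : Set ℕ) := by
        intro k' hk'
        rw [Finset.mem_coe, Finset.mem_Ico]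
        exact ⟨hk'.1, hk'.2.1⟩
      have h3 := Set.eq_of_subset_of_ncard_le h2 (by
        rw [h1, hm, Set.ncard_coe_finset, Nat.card_Ico]) (Finset.finite_toSet _)
      have h4 : k ∈ ((Finset.Ico 1 ℓ : Finset ℕ) : Set ℕ) := hk
      rw [← h3] at h4
      exact h4.2.2
    have hUk : ∀ χ ∈ Irr G, ∀ k ∈ Finset.Ico 1 ℓ, U j k χ = U j j χ := by
      intro χ hχ k hk
      obtain ⟨t, ht, htk⟩ := hconj k hk
      have h1 := (dpw ℓ M hM hS.odd G e V γ b d c ε hS.dat).1 t ht _ (hc1 j j hj hj)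
      rw [htk] at h1
      rw [hU, hU]
      unfold vk
      rw [h1.2.1, h1.2.2 χ hχ]
    have h := hbes (fun i χ => θ * B (j + ℓ * i) χ - U (j + ℓ * i) j χ) (ℓ ^ 4) ?_ ?_ ?_
    · simp only [mul_zero, add_zero] at h
      have h5 : ∀ χ ∈ Rf M N e, Complex.normSq (θ * B j χ - U j j χ) =
          (ℓ : ℝ) ^ 2 * Complex.normSq (aa M ℓ b d ε y w π g θ j χ - vk M ℓ b d ε y w j j χ) := by
        intro χ hχ
        have h6 : θ * B j χ - U j j χ =
            (ℓ : ℂ) * (aa M ℓ b d ε y w π g θ j χ - vk M ℓ b d ε y w j j χ) := by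
          have h7 : ∑ k ∈ Finset.Ico 1 ℓ, vk M ℓ b d ε y w j k χ =
              ((ℓ : ℂ) - 1) * vk M ℓ b d ε y w j j χ := by
            rw [Finset.sum_congr rfl (g := fun _ => vk M ℓ b d ε y w j j χ)
              (fun k hk => by rw [← hU, ← hU]; exact hUk χ (hRI hχ) k hk), Finset.sum_const,
              Nat.card_Ico, nsmul_eq_mul, Nat.cast_sub hp.one_lt.le, Nat.cast_one]
          unfold aa bq
          rw [h7, mul_sub, mul_inv_cancel_left₀ hℓ0, hB, hU]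
          simp only [hA]
          ring
        rw [h6, map_mul, Complex.normSq_natCast]
        ring
      rw [finsum_mem_eq_finite_toFinset_sum _ hRf] at h
      rw [Finset.sum_congr rfl (fun χ hχ => h5 χ (hRf.mem_toFinset.1 hχ)), ← Finset.mul_sum] at h
      rw [finsum_mem_eq_finite_toFinset_sum _ hRf]
      have h7 : (0 : ℝ) < (ℓ : ℝ) ^ 2 := pow_pos hℓp 2
      refine le_of_mul_le_mul_left (h.trans (le_of_eq ?_)) h7
      ring
    · intro i hi i' hi' hii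
      rw [P_sub, P_sub', P_sub', P_mul, P_mul, P_mul', gBB _ _ (hji i) (hjj i i'),
        gUU _ _ (hji i) (hjj i i') j j hj hj, gBU _ _ (hji i) (hjj i i') j hj,
        P_mul', P_symm0 S (gBU _ _ (hji i') (hjj i' i) j hj), if_neg (hne i hi i' hi' hii),
        if_neg (fun h => hne i hi i' hi' hii h.1)]
      ring
    · intro i hi
      have hm' : (m : ℂ) = (ℓ : ℂ) - 1 := by
        rw [hm, Nat.cast_sub hp.one_lt.le, Nat.cast_one]
      rw [P_sub, P_sub', P_sub', P_mul, P_mul, P_mul', gBB _ _ (hji i) (hjj i i),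
        gUU _ _ (hji i) (hjj i i) j j hj hj, gBU _ _ (hji i) (hjj i i) j hj,
        P_mul', P_symm0 S (gBU _ _ (hji i) (hjj i i) j hj), if_pos (Nat.ModEq.refl _),
        if_pos ⟨Nat.ModEq.refl _, 1, Subgroup.one_mem _, by rw [one_mul, inv_one, mul_one]⟩,
        hθc, ← mul_assoc, hθ2, hm']
      push_cast
      ring
    · intro i _ χ hχ
      simp only [mul_zero, add_zero]
      rw [fB χ hχ, fU χ hχ i j hj]

end Pool.Agent.PP.T12.H13
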