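import Pool.Agent.AT12.Stmts3
import Pool.Agent.Helper67_AT2.FXS
import Pool.Agent.Helper3_K9.Lbd

/-!
# Squad AT12, row FX1 (helper13): the number of the fixed characters is larger than `ln e`
(adapted from `Helper67_AT2/FXS.lean`)
-/

set_option autoImplicit false

open scoped BigOperators

noncomputable section

namespace Pool.Agent.PP.T12.H13

open Pool.Agent.Helper51_AWC Pool.Agent.Helper79_WRA Pool.Agent.PP Pool.Agent.PP.KF
open Pool.Agent.PP.K9 Pool.Agent.PP.K9.H97 Pool.Agent.PP.H75 Pool.Agent.PP.T3 Pool.Agent.PP.T2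
open Pool.Agent.PP.T8

attribute [local instance] Ideal.Quotient.field

theorem reg_coe' {ℓ : ℕ} {G : Type} [Group G] {C : Subgroup G} {s : C} (hs : Reg ℓ s) :
    Reg ℓ (s : G) := by
  unfold Reg at hs ⊢
  rwa [Subgroup.orderOf_coe]

theorem fx1_core (ada : AdaStmt) (wbo : WboStmt) (idm : KF.IdmStmt) (prt : PrtStmt)
    (fxy : FxyStmt) (lrk : LrkStmt) (stg : StgStmt) (nz : K9.NzStmt) (loc : T3.LocStmt)
    (lsb : LsbStmt) : Fx1Stmt := by
  intro ℓ hℓ M _ hM G _ _ N hN e V γ hL hVne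
  classical
  have hp : ℓ.Prime := hℓ.out
  have := Fintype.ofFinite G
  have he : IsIdem e := hL.blk.1
  have hF : GoodF ℓ (FF M) := H50.fld ℓ hp M hM
  have hyp := stg ℓ M hM G N hN e V γ hL
  have hfi : (Irr G).Finite := irr_finite'
  have hirr : IrrE M e ⊆ Irr G := fun _ h => h.1
  have := (hfi.subset hirr).fintype
  have hG0 : (Nat.card G : ℂ) ≠ 0 := by exact_mod_cast Nat.card_pos.ne'
  have hG1 : (0 : ℝ) < Nat.card G := by exact_mod_cast Nat.card_pos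
  obtain ⟨N₀, hN1, hN2⟩ := prt ℓ G
  have hrt := T3.H23.rtc' ada wbo idm ℓ M hM G N hN.cop hN.reg e he
  -- the summands
  obtain ⟨T, hT⟩ : ∃ T : G → ℂ, ∀ g,
      T g = ∑ χ : IrrE M e, (χ : G → ℂ) (g ^ N) * starRingEnd ℂ ((χ : G → ℂ) g) :=
    ⟨_, fun _ => rfl⟩
  have hfm : ∀ F : (G → ℂ) → ℂ, ∑ᶠ χ ∈ IrrE M e, F χ = ∑ χ : IrrE M e, F χ := fun F => by
    rw [← finsum_eq_sum_of_fintype, finsum_set_coe_eq_finsum_mem]
  -- the number of the fixed characters
  have hA : (Nat.card G : ℂ) * ({χ | χ ∈ IrrE M e ∧ ∀ g, χ (g ^ N) = χ g}.ncard : ℂ) =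
      ∑ g, T g := by
    have h1 : ∀ χ : IrrE M e, ∑ g, (χ : G → ℂ) (g ^ N) * starRingEnd ℂ ((χ : G → ℂ) g) =
        (Nat.card G : ℂ) * if (∀ g, (χ : G → ℂ) (g ^ N) = (χ : G → ℂ) g) then 1 else 0 := by
      intro χ
      by_cases h : ∀ g, (χ : G → ℂ) (g ^ N) = (χ : G → ℂ) g
      · rw [if_pos h]
        have h2 := K9.H11.ipn_self (hirr χ.2)
        rw [K9.H11.ipn_eq] at h2
        simp only [h]
        rw [← h2, mul_inv_cancel_left₀ hG0]
      · rw [if_neg h]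
        have h2 := K9.H11.ipn_ne (hrt.1 χ (hirr χ.2)) (hirr χ.2) (fun h3 => h (congrFun h3))
        rw [K9.H11.ipn_eq] at h2
        rw [mul_zero]
        exact (mul_eq_zero.1 h2).resolve_left (inv_ne_zero hG0)
    simp only [hT]
    rw [Finset.sum_comm]
    simp only [h1]
    rw [← Finset.mul_sum, Finset.sum_ite, Finset.sum_const_zero, add_zero, Finset.sum_const,
      nsmul_eq_mul, mul_one]
    congr 2
    have h3 : {χ | χ ∈ IrrE M e ∧ ∀ g, χ (g ^ N) = χ g} =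
        Subtype.val '' ((Finset.univ.filter (fun χ : IrrE M e =>
          ∀ g, (χ : G → ℂ) (g ^ N) = (χ : G → ℂ) g) : Finset (IrrE M e)) : Set (IrrE M e)) := by
      ext χ
      constructor
      · rintro ⟨h4, h5⟩
        exact ⟨⟨χ, h4⟩, by simpa using h5, rfl⟩
      · rintro ⟨χ', h4, rfl⟩
        exact ⟨χ'.2, by simpa using h4⟩
    rw [h3, Set.ncard_image_of_injective _ Subtype.val_injective, Set.ncard_coe_finset]
  -- the fibres
  have hfib : ∑ g, T g = ∑ y : G, ∑ g ∈ Finset.univ.filter (fun g : G => (g ^ N₀)⁻¹ * g = y), T g :=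
    (Finset.sum_fiberwise Finset.univ (fun g : G => (g ^ N₀)⁻¹ * g) T).symm
  have hpow : ∀ y s : G, s ∈ Cu y ∧ Reg ℓ s → (y * s) ^ N = y ^ N * s := by
    intro y s hs
    have hc : Commute s y := Subgroup.mem_centralizer_singleton_iff.1 hs.1
    rw [hc.symm.mul_pow, hN.reg s hs.2]
  have hnt : ∀ g, (∑ χ : IrrE M e, (χ : G → ℂ) g * starRingEnd ℂ ((χ : G → ℂ) g)).re =
      ∑ χ : IrrE M e, Complex.normSq ((χ : G → ℂ) g) := by
    intro g
    rw [Complex.re_sum]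
    refine Finset.sum_congr rfl fun χ _ => ?_
    rw [Complex.mul_conj, Complex.ofReal_re]
  have hnn : ∀ g, 0 ≤ (∑ χ : IrrE M e, (χ : G → ℂ) g * starRingEnd ℂ ((χ : G → ℂ) g)).re := by
    intro g
    rw [hnt]
    exact Finset.sum_nonneg fun χ _ => Complex.normSq_nonneg _
  have hyT : ∀ y : G, El ℓ y → y ^ ℓ = 1 →
      ∀ s ∈ Finset.univ.filter (fun s : G => s ∈ Cu y ∧ Reg ℓ s), T (y * s) =
        ∑ χ : IrrE M e, (χ : G → ℂ) (y * s) * starRingEnd ℂ ((χ : G → ℂ) (y * s)) := by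
    intro y hy hyl s hs
    rw [Finset.mem_filter] at hs
    rw [hT, hpow y s hs.2, hN.pow y hy, pow_add, pow_one, hyl, mul_one]
  have hy0 : ∀ y : G, 0 ≤ (∑ g ∈ Finset.univ.filter (fun g : G => (g ^ N₀)⁻¹ * g = y), T g).re := by
    intro y
    by_cases hy : El ℓ y
    · rw [T2.H67.fibre hN1 hN2 T y hy]
      by_cases hyl : y ^ ℓ = 1
      · rw [Complex.re_sum]
        refine Finset.sum_nonneg fun s hs => ?_
        rw [hyT y hy hyl s hs]
        exact hnn _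
      · have hy1 : y ≠ 1 := by
          rintro rfl
          exact hyl (one_pow _)
        have h3 := fxy ℓ M hM G N hN.cop e he y hy1 hy (hyp y hy hyl)
        rw [T2.H67.fs_filter] at h3
        have h4 : ∑ s ∈ Finset.univ.filter (fun s : G => s ∈ Cu y ∧ Reg ℓ s), T (y * s) = 0 := by
          rw [← h3]
          refine Finset.sum_congr rfl fun s hs => ?_
          rw [Finset.mem_filter] at hs
          rw [hT, hfm, hpow y s hs.2]
        rw [h4, Complex.zero_re]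
    · have h3 : Finset.univ.filter (fun g : G => (g ^ N₀)⁻¹ * g = y) = ∅ := by
        rw [Finset.filter_eq_empty_iff]
        intro g _ hg
        exact hy (hg ▸ (hN1 g).2)
      rw [h3, Finset.sum_empty, Complex.zero_re]
  have h1 : ∑ g ∈ Finset.univ.filter (fun g : G => (g ^ N₀)⁻¹ * g = 1), T g =
      (Nat.card G : ℂ) * (ln e : ℂ) := by
    have hE1 : El ℓ (1 : G) := ⟨0, one_pow _⟩
    rw [T2.H67.fibre hN1 hN2 T 1 hE1, lrk ℓ M hM G e he, T2.H67.fs_filter,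
      mul_inv_cancel_left₀ hG0]
    have h3 : Finset.univ.filter (fun s : G => s ∈ Cu (1 : G) ∧ Reg ℓ s) =
        Finset.univ.filter (fun s : G => Reg ℓ s) := by
      apply Finset.filter_congr
      intro s _
      constructor
      · exact fun h => h.2
      · intro h
        refine ⟨?_, h⟩
        rw [Subgroup.mem_centralizer_singleton_iff, mul_one, one_mul]
    rw [h3]
    refine Finset.sum_congr rfl fun s hs => ?_
    rw [Finset.mem_filter] at hs
    rw [hT, hfm, one_mul, hN.reg s hs.2]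
  -- an element of order `ℓ`
  obtain ⟨z, hzV, hz1, hzl⟩ : ∃ z ∈ V, z ≠ 1 ∧ z ^ ℓ = 1 := by
    obtain ⟨v, hv, hv1⟩ := (Subgroup.ne_bot_iff_exists_ne_one (H := V)).1 hVne |>.elim
      fun x hx => (⟨(x : G), x.2, fun h => hx (Subtype.ext h)⟩ : ∃ v : G, v ∈ V ∧ v ≠ 1)
    obtain ⟨n, hn⟩ := hL.tp.pg ⟨v, hv⟩
    have hn' : v ^ ℓ ^ n = 1 := congrArg Subtype.val hn
    obtain ⟨k, hk⟩ := (Nat.dvd_prime_pow hp).1 (orderOf_dvd_of_pow_eq_one hn')
    have hk0 : k ≠ 0 := by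
      rintro rfl
      exact hv1 (orderOf_eq_one_iff.1 (by rw [hk.2, pow_zero]))
    obtain ⟨k', rfl⟩ := Nat.exists_eq_succ_of_ne_zero hk0
    refine ⟨v ^ ℓ ^ k', V.pow_mem hv _, ?_, ?_⟩
    · intro h
      have h2 := orderOf_dvd_of_pow_eq_one h
      rw [hk.2] at h2
      have h3 := (Nat.pow_dvd_pow_iff_le_right hp.one_lt).1 h2
      omega
    · rw [← pow_mul, ← pow_succ, ← hk.2, pow_orderOf_eq_one]
  have hzE : El ℓ z := ⟨1, by rw [pow_one]; exact hzl⟩
  obtain ⟨b, hb⟩ := (loc ℓ (FF M) hF G e V γ hL z hzV).1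
  -- a character of the block
  obtain ⟨χ, hχ⟩ : (IrrE M e).Nonempty := by
    obtain ⟨h1, h2⟩ := H3.lbd ℓ M hM G e he hL.blk.2.1
    have h3 : 0 < (IrrE M e).ncard := lt_of_lt_of_le one_pos (h1.trans h2)
    exact (Set.ncard_pos (hfi.subset hirr)).1 h3
  have h2 := lsb ℓ M hM G e V γ hL z hzV b hb
  have h3 := nz ℓ M hM G e hL.blk V hL.tp hL.ab z hzV (fun t : Cu z => b t) hb.blk.blk hb.und
    h2.1.tp.gd z (Subgroup.mem_zpowers z) χ hχ
  obtain ⟨s, hsr, hsχ⟩ : ∃ s : Cu z, Reg ℓ (s : G) ∧ χ (z * s) ≠ 0 := by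
    by_contra hcon
    push Not at hcon
    apply h3
    unfold gbv
    rw [finsum_eq_sum_of_fintype]
    refine Finset.sum_eq_zero fun c _ => ?_
    by_cases hc : Reg ℓ (c : G)
    · rw [hcon c hc, mul_zero]
    · rw [K9.H25.eh_sing wbo ℓ M hM (fun t : Cu z => b t) hb.blk.blk.1 c
        (fun h => hc (reg_coe' h)), zero_mul]
  have hzpos : 0 < (∑ g ∈ Finset.univ.filter (fun g : G => (g ^ N₀)⁻¹ * g = z), T g).re := by
    rw [T2.H67.fibre hN1 hN2 T z hzE, Complex.re_sum]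
    refine Finset.sum_pos' (fun x hx => ?_) ⟨s, ?_, ?_⟩
    · rw [hyT z hzE hzl x hx]
      exact hnn _
    · rw [Finset.mem_filter]
      exact ⟨Finset.mem_univ _, s.2, hsr⟩
    · rw [hyT z hzE hzl s (by rw [Finset.mem_filter]; exact ⟨Finset.mem_univ _, s.2, hsr⟩), hnt]
      exact Finset.sum_pos' (fun _ _ => Complex.normSq_nonneg _)
        ⟨⟨χ, hχ⟩, Finset.mem_univ _, Complex.normSq_pos.2 hsχ⟩
  have hmain : (Nat.card G : ℝ) * (ln e : ℝ) <
      (Nat.card G : ℝ) * ({χ | χ ∈ IrrE M e ∧ ∀ g, χ (g ^ N) = χ g}.ncard : ℝ) := by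
    have h3 : ((Nat.card G : ℂ) * ({χ | χ ∈ IrrE M e ∧ ∀ g, χ (g ^ N) = χ g}.ncard : ℂ)).re =
        (Nat.card G : ℝ) * ({χ | χ ∈ IrrE M e ∧ ∀ g, χ (g ^ N) = χ g}.ncard : ℝ) := by
      norm_cast
    have h4 : ((Nat.card G : ℂ) * (ln e : ℂ)).re = (Nat.card G : ℝ) * (ln e : ℝ) := by
      norm_cast
    rw [← h3, hA, hfib, Complex.re_sum, ← h4, ← h1]
    exact Finset.single_lt_sum (f := fun y : G =>
      (∑ g ∈ Finset.univ.filter (fun g : G => (g ^ N₀)⁻¹ * g = y), T g).re) (i := 1) (j := z)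
      hz1 (Finset.mem_univ 1) (Finset.mem_univ z) hzpos (fun y _ _ => hy0 y)
  have h5 := lt_of_mul_lt_mul_left hmain hG1.le
  have h6 : ln e < {χ | χ ∈ IrrE M e ∧ ∀ g, χ (g ^ N) = χ g}.ncard := by exact_mod_cast h5
  exact h6

/-- FX1 -/
theorem fx1 (fxy : FxyStmt) (stg : StgStmt) (nz : K9.NzStmt) (lrk : LrkStmt) (loc : T3.LocStmt)
    (lsb : LsbStmt) : Fx1Stmt :=
  fx1_core (K9.H25.ada K9.H20.adp) (K9.H82W.wbo (K9.H82.trb K9.H53.tra)) KF.H25.idm K9.H27.prt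
    fxy lrk stg nz loc lsb

end Pool.Agent.PP.T12.H13
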