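import Pool.Agent.AT12.Stmts3
import Pool.Agent.Helper18_AT8.HGT

/-!
# Squad AT12, row LBZ (helper13): the bound for the number of the fixed characters
-/

set_option autoImplicit false

open scoped BigOperators

noncomputable section

namespace Pool.Agent.PP.T12.H13

open Pool.Agent.Helper51_AWC Pool.Agent.Helper79_WRA Pool.Agent.PP Pool.Agent.PP.KF
open Pool.Agent.PP.K9 Pool.Agent.PP.K9.H97 Pool.Agent.PP.H75 Pool.Agent.PP.T3 Pool.Agent.PP.T2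
open Pool.Agent.PP.T8

attribute [local instance] Ideal.Quotient.field

/-- NRM, if the sum is not zero for some `j₀` prime to `ℓ` -/
theorem nrmj (nrm : T8.NrmStmt) {ℓ : ℕ} [hℓ : Fact ℓ.Prime] {M : Ideal (integralClosure ℤ ℂ)}
    [M.IsMaximal] (hM : (ℓ : integralClosure ℤ ℂ) ∈ M) {a : ℕ} (ha : 0 < a) (s h : ℕ) {ζ : ℂ}
    (hζ : IsPrimitiveRoot ζ (ℓ ^ a)) (n : ℕ → ℤ)
    (hR : ∀ j : ℕ, ¬ ℓ ∣ j →
      (∑ i ∈ Finset.range (ℓ ^ a), (n i : ℂ) * ζ ^ (i * j)) / ℓ ^ s / ℓ ^ h ∈ RM M)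
    {j₀ : ℕ} (hj₀ : ¬ ℓ ∣ j₀) (hne : ∑ i ∈ Finset.range (ℓ ^ a), (n i : ℂ) * ζ ^ (i * j₀) ≠ 0) :
    ((ℓ ^ (a - 1) * (ℓ - 1) * ℓ ^ (2 * h) : ℕ) : ℝ) ≤
      ∑ j ∈ (Finset.range (ℓ ^ a)).filter (fun j => ¬ ℓ ∣ j),
        Complex.normSq ((∑ i ∈ Finset.range (ℓ ^ a), (n i : ℂ) * ζ ^ (i * j)) / ℓ ^ s) := by
  have hp : ℓ.Prime := hℓ.out
  have hl : 1 < ℓ ^ a := Nat.one_lt_pow ha.ne' hp.one_lt
  have hq : 0 < ℓ ^ a := by omega
  have hla : ℓ ∣ ℓ ^ a := dvd_pow_self ℓ ha.ne'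
  have hc : Nat.Coprime j₀ (ℓ ^ a) :=
    Nat.Coprime.pow_right a (((Nat.Prime.coprime_iff_not_dvd hp).2 hj₀).symm)
  obtain ⟨F, hF⟩ : ∃ F : ℕ → ℂ, ∀ j, F j =
      ∑ i ∈ Finset.range (ℓ ^ a), (n i : ℂ) * ζ ^ (i * j) := ⟨_, fun _ => rfl⟩
  have hF2 : ∀ j, ∑ i ∈ Finset.range (ℓ ^ a), (n i : ℂ) * (ζ ^ j₀) ^ (i * j) = F (j₀ * j) := by
    intro j
    rw [hF]
    refine Finset.sum_congr rfl fun i _ => ?_
    rw [← pow_mul]
    congr 2
    ring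
  have hFmod : ∀ j, F (j % ℓ ^ a) = F j := by
    intro j
    rw [hF, hF]
    refine Finset.sum_congr rfl fun i _ => ?_
    congr 1
    rw [mul_comm i, pow_mul, mul_comm i, pow_mul]
    congr 1
    exact (pow_eq_pow_mod j hζ.pow_eq_one).symm
  have h1 := nrm ℓ M hM a s h ha (ζ ^ j₀) (hζ.pow_of_coprime j₀ hc) n (fun j hj => by
    rw [hF2, hF]
    exact hR _ (fun hd => (hp.dvd_mul.1 hd).elim hj₀ hj)) (by
    have h2 := hF2 1
    simp only [mul_one] at h2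
    rw [h2, hF]
    exact hne)
  refine h1.trans (le_of_eq ?_)
  simp only [hF2]
  obtain ⟨j₁, -, hj₁⟩ := Nat.exists_mul_mod_eq_one_of_coprime hc hl
  have hj₁' : ¬ ℓ ∣ j₁ := by
    intro hd
    have h2 : ℓ ∣ j₀ * j₁ := hd.mul_left j₀
    have h3 : ℓ ∣ 1 := by
      rw [← hj₁]
      exact (Nat.dvd_mod_iff hla).2 h2
    exact hp.one_lt.ne' (Nat.dvd_one.1 h3)
  have hJ : ∀ x : ℕ, ¬ ℓ ∣ x → ∀ j ∈ (Finset.range (ℓ ^ a)).filter (fun j => ¬ ℓ ∣ j),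
      x * j % ℓ ^ a ∈ (Finset.range (ℓ ^ a)).filter (fun j => ¬ ℓ ∣ j) := by
    intro x hx j hj
    rw [Finset.mem_filter] at hj ⊢
    refine ⟨Finset.mem_range.2 (Nat.mod_lt _ hq), fun hd => ?_⟩
    exact (hp.dvd_mul.1 ((Nat.dvd_mod_iff hla).1 hd)).elim hx hj.2
  have hinv : ∀ x x' : ℕ, x * x' % ℓ ^ a = 1 →
      ∀ j ∈ (Finset.range (ℓ ^ a)).filter (fun j => ¬ ℓ ∣ j), x * (x' * j % ℓ ^ a) % ℓ ^ a = j := by
    intro x x' hx j hj
    rw [Finset.mem_filter, Finset.mem_range] at hj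
    rw [Nat.mul_mod, Nat.mod_mod, ← Nat.mul_mod, ← mul_assoc, Nat.mul_mod, hx, one_mul, Nat.mod_mod,
      Nat.mod_eq_of_lt hj.1]
  refine Finset.sum_nbij' (fun j => j₀ * j % ℓ ^ a) (fun j => j₁ * j % ℓ ^ a) (hJ j₀ hj₀)
    (hJ j₁ hj₁') (hinv j₁ j₀ (by rw [mul_comm]; exact hj₁)) (hinv j₀ j₁ hj₁) ?_
  intro j _
  rw [← hF, hFmod]

theorem lbz (cnb : CnbStmt) (be2 : Be2Stmt) (gal : GalStmt) (avl : AvlStmt) (crg : CrgStmt)
    (nrm : T8.NrmStmt) (dcg : T8.DcgStmt) (inx : K9.InxStmt) : LbzStmt := by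
  intro ℓ hℓ M _ hM G H _ _ _ _ N e V γ b d c ε y w β π m K g θ hS
  classical
  have hp : ℓ.Prime := hℓ.out
  have hF : GoodF ℓ (FF M) := H50.fld ℓ hp M hM
  have := Fintype.ofFinite G
  have hI : (Irr G).Finite := irr_finite'
  have hRI : Rf M N e ⊆ Irr G := fun χ hχ => hχ.1.1
  have hRf : (Rf M N e).Finite := hI.subset hRI
  have hRt := hRf.fintype
  have hℓ0 : (ℓ : ℂ) ≠ 0 := by exact_mod_cast hp.ne_zero
  have hm2 := hS.cs.two
  have hmd := hS.cs.dvd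
  have hodd : Odd ℓ := hp.odd_of_ne_two hS.odd
  have hℓ3 : 3 ≤ ℓ := by
    have h1 := hp.two_le
    have h2 := hS.odd
    omega
  have hl2 : 1 < ℓ ^ 2 := Nat.one_lt_pow two_ne_zero hp.one_lt
  have hn1 : ¬ ℓ ∣ 1 := fun hd => hp.one_lt.ne' (Nat.dvd_one.1 hd)
  have hζ := Complex.isPrimitiveRoot_exp (ℓ ^ 2) (by omega)
  obtain ⟨ζ, hζ⟩ : ∃ ζ : ℂ, IsPrimitiveRoot ζ (ℓ ^ 2) := ⟨_, hζ⟩
  obtain ⟨J, hJ⟩ : ∃ J : Finset ℕ, J = (Finset.range (ℓ ^ 2)).filter (fun j => ¬ ℓ ∣ j) :=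
    ⟨_, rfl⟩
  have hJm : ∀ j : J, ¬ ℓ ∣ (j : ℕ) := by
    rintro ⟨j, h1⟩
    rw [hJ, Finset.mem_filter] at h1
    exact h1.2
  have h1J : 1 ∈ J := by
    rw [hJ, Finset.mem_filter, Finset.mem_range]
    exact ⟨hl2, hn1⟩
  have hJc : Fintype.card J = ℓ ^ (2 - 1) * (ℓ - 1) := by
    rw [Fintype.card_coe, hJ]
    exact T8.H18.card_filter_ndvd two_pos
  have hcard : (Rf M N e).ncard = Fintype.card (Rf M N e) := by
    rw [← Nat.card_coe_set_eq, Nat.card_eq_fintype_card]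
  have hsR : ∀ f : (G → ℂ) → ℝ, ∑ᶠ χ ∈ Rf M N e, f χ = ∑ χ : Rf M N e, f χ := fun f => by
    rw [← finsum_eq_sum_of_fintype, finsum_set_coe_eq_finsum_mem]
  have hsJ : ∀ f : ℕ → ℝ, ∑ j : J, f j = ∑ j ∈ (Finset.range (ℓ ^ 2)).filter (fun j => ¬ ℓ ∣ j),
      f j := fun f => by
    rw [Finset.sum_coe_sort J f, hJ]
  have hint : ∀ (n : ℕ → ℤ) (j : ℕ), ∑ i ∈ Finset.range (ℓ ^ 2), (n i : ℂ) * ζ ^ (i * j) ∈ RM M := by
    intro n j
    refine sum_mem fun i _ => (RM M).mul_mem (rr_int (n i)).1 ?_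
    exact RM_of_int ((hζ.isIntegral (by omega)).pow _)
  have hbes := be2 ℓ M hM G H N e V γ b d c ε y w β π m K g θ hS
  have hgal := gal ℓ M hM G H N e V γ b d c ε y w β π m K g θ hS ζ hζ
  have havl := avl ℓ M hM G H N e V γ b d c ε y w β π m K g θ hS
  obtain ⟨hc1, -, -⟩ := crg ℓ (FF M) hF hS.odd G e V γ hS.dat.ld y w m hS.cs
  have hmℓ : ¬ ℓ ∣ m := by
    intro hd
    have h1 := Nat.le_of_dvd (by omega) (hd.trans hmd)
    omega
  have hmR : ((m : ℂ))⁻¹ ∈ RM M := by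
    refine (inv_RM (rr_nat m).1 ?_).1
    intro h0
    have h1 : rr M ((m : ℤ) : ℂ) = 0 := by rw [Int.cast_natCast]; exact h0
    exact hmℓ (Int.natCast_dvd_natCast.1 ((dvd_of_rr hp hM).1 h1))
  have hm0 : (m : ℂ) ≠ 0 := by
    have : m ≠ 0 := by omega
    exact_mod_cast this
  rw [hcard]
  refine cnb ℓ m J (Rf M N e) (fun j χ s => Av ℓ π (y ^ (j : ℕ)) (g s) χ)
    (fun j χ => aa M ℓ b d ε y w π g θ j χ) (fun j χ => vk M ℓ b d ε y w j j χ) hodd hℓ3 hm2 hmd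
    ?_ ?_ ?_ ?_ ?_ ?_ ?_ ?_ ?_
  · exact Fintype.card_pos_iff.2 ⟨⟨1, h1J⟩⟩
  · intro j s s' hss
    have h := (hbes j (hJm j)).1 s s' hss
    rw [hsR] at h
    exact h
  · intro j
    have h := (hbes j (hJm j)).2.1
    rw [hsR] at h
    exact h
  · intro j
    have h := (hbes j (hJm j)).2.2.1 j (hJm j)
    rw [hsR] at h
    exact h
  · intro hm j
    have h := (hbes j (hJm j)).2.2.2 hm
    rw [hsR] at h
    exact h
  · intro χ s s'
    obtain ⟨n, hn⟩ := (hgal χ (hRI χ.2)).1 s s'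
    by_cases h0 : ∀ j : J, Av ℓ π (y ^ (j : ℕ)) (g s) χ = Av ℓ π (y ^ (j : ℕ)) (g s') χ
    · exact Or.inl h0
    · right
      push Not at h0
      obtain ⟨j₀, hj₀⟩ := h0
      have h1 := nrmj nrm hM two_pos 0 0 hζ n (fun j _ => by
        rw [pow_zero, div_one, div_one]
        exact hint n j) (hJm j₀) (by
        rw [← hn]
        exact sub_ne_zero.2 hj₀)
      rw [mul_zero, pow_zero, mul_one, ← hJc] at h1
      refine h1.trans (le_of_eq ?_)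
      rw [hsJ (fun j => Complex.normSq (Av ℓ π (y ^ j) (g s) χ - Av ℓ π (y ^ j) (g s') χ))]
      refine Finset.sum_congr rfl fun j _ => ?_
      rw [pow_zero, div_one, hn]
  · rintro χ ⟨j₀, hj₀⟩
    obtain ⟨n, hn⟩ := (hgal χ (hRI χ.2)).2.1
    have hq : ∀ j : ℕ, ¬ ℓ ∣ j → (∑ i ∈ Finset.range (ℓ ^ 2), (n i : ℂ) * ζ ^ (i * j)) / ℓ ^ 1 =
        aa M ℓ b d ε y w π g θ j χ := by
      intro j hj
      rw [← hn j hj, pow_one, mul_div_cancel_left₀ _ hℓ0]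
    have h1 := nrmj nrm hM two_pos 1 0 hζ n (fun j hj => by
      rw [hq j hj, pow_zero, div_one]
      exact (havl χ χ.2 j hj).1) (hJm j₀) (by
      rw [← hn j₀ (hJm j₀)]
      exact mul_ne_zero hℓ0 hj₀)
    rw [mul_zero, pow_zero, mul_one, ← hJc] at h1
    refine h1.trans (le_of_eq ?_)
    rw [hsJ (fun j => Complex.normSq (aa M ℓ b d ε y w π g θ j χ))]
    refine Finset.sum_congr rfl fun j hj => ?_
    rw [hq j (Finset.mem_filter.1 hj).2]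
  · rintro χ ⟨j₀, hj₀⟩ hX
    obtain ⟨n, hn⟩ := (hgal χ (hRI χ.2)).2.2.1 (fun s s' => by
      have h1 := hX ⟨1, h1J⟩ s s'
      simp only [pow_one] at h1
      exact h1)
    have hq : ∀ j : ℕ, ¬ ℓ ∣ j → (∑ i ∈ Finset.range (ℓ ^ 2), (n i : ℂ) * ζ ^ (i * j)) / ℓ ^ 1 =
        (m : ℂ)⁻¹ * aa M ℓ b d ε y w π g θ j χ := by
      intro j hj
      have h1 := hn j hj
      rw [pow_one, div_eq_iff hℓ0, mul_assoc, mul_comm (aa M ℓ b d ε y w π g θ j χ), h1,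
        inv_mul_cancel_left₀ hm0]
    have h1 := nrmj nrm hM two_pos 1 0 hζ n (fun j hj => by
      rw [hq j hj, pow_zero, div_one]
      exact (RM M).mul_mem hmR (havl χ χ.2 j hj).1) (hJm j₀) (by
      intro h0
      have h2 := hn j₀ (hJm j₀)
      rw [h0, mul_zero] at h2
      exact mul_ne_zero hℓ0 hj₀ h2)
    rw [mul_zero, pow_zero, mul_one, ← hJc] at h1
    have hmr : (0 : ℝ) < (m : ℝ) ^ 2 := by
      have : 0 < m := by omega
      positivity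
    have h2 := mul_le_mul_of_nonneg_left h1 hmr.le
    refine h2.trans (le_of_eq ?_)
    rw [hsJ (fun j => Complex.normSq (aa M ℓ b d ε y w π g θ j χ)), Finset.mul_sum]
    refine Finset.sum_congr rfl fun j hj => ?_
    rw [hq j (Finset.mem_filter.1 hj).2, map_mul, map_inv₀, Complex.normSq_natCast, ← mul_assoc,
      ← pow_two, mul_inv_cancel₀ hmr.ne', one_mul]
  · intro χ h0
    have hχe : (χ : G → ℂ) ∈ IrrE M e := χ.2.1
    -- a regular element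
    obtain ⟨u₀, hu₀, hcon⟩ : ∃ u, Rg V γ u ∧ vv M b d u χ / ℓ ∈ RM M := by
      by_contra hcon
      push Not at hcon
      have h1 := (havl χ χ.2 1 hn1).2 hcon
      have h2 := h0 ⟨1, h1J⟩
      rw [h2, zero_div] at h1
      exact h1 (RM M).zero_mem
    have D := hS.dat
    have hix : ¬ ℓ ∣ ix V γ :=
      inx ℓ M hM G e D.ld.blk V D.ld.tp D.ld.ab γ D.ld.gam.supp D.ld.gam.blk D.ld.und
    obtain ⟨ρ, hρ⟩ : ∃ ρ : ℂ, ρ = (Nat.card G * c : ℂ) /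
        (Nat.card (Subgroup.centralizer (V : Set G)) * (χ : G → ℂ) 1) := ⟨_, rfl⟩
    have hXu : ∀ u, Rg V γ u → vv M b d u χ * ρ ∈ RM M ∧ rr M (vv M b d u χ * ρ) ≠ 0 := by
      intro u hu
      obtain ⟨h1, h2⟩ := dcg ℓ M hM G e V γ b d c ε D u hu χ hχe
      rw [hρ]
      refine ⟨h1, ?_⟩
      rw [h2, ← (rr_int (M := M) (ε u * ix V γ)).2]
      intro h3
      have h4 := (dvd_of_rr (M := M) hp hM).1 h3
      have h5 : (ℓ : ℤ) ∣ (ix V γ : ℤ) := by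
        rcases D.sg u hu with h | h
        · rwa [h, one_mul] at h4
        · rw [h, neg_one_mul] at h4
          exact (Int.dvd_neg.1 h4)
      exact hix (Int.natCast_dvd_natCast.1 h5)
    have hv0 : ∀ u, Rg V γ u → vv M b d u χ ≠ 0 := by
      intro u hu h0
      apply (hXu u hu).2
      rw [h0, zero_mul, rr_zero]
    have hdiv : ∀ u, Rg V γ u → vv M b d u χ / ℓ ∈ RM M := by
      intro u hu
      obtain ⟨h1, h2⟩ := inv_RM (hXu u₀ hu₀).1 (hXu u₀ hu₀).2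
      have h3 := (RM M).mul_mem ((RM M).mul_mem hcon (hXu u hu).1) h1
      have h4 : vv M b d u₀ χ ≠ 0 := left_ne_zero_of_mul h2
      have h5 : ρ ≠ 0 := right_ne_zero_of_mul h2
      have h6 : vv M b d u₀ χ / ℓ * (vv M b d u χ * ρ) * (vv M b d u₀ χ * ρ)⁻¹ =
          vv M b d u χ / ℓ := by
        field_simp
      rwa [h6] at h3
    obtain ⟨n, hn⟩ := (hgal χ (hRI χ.2)).2.2.2
    have hεne : ∀ u, Rg V γ u → (ε u : ℂ) ≠ 0 := by
      intro u hu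
      rcases D.sg u hu with h | h <;> rw [h] <;> norm_num
    have h1 := nrmj nrm hM two_pos 0 1 hζ n (fun j hj => by
      rw [← hn j hj, pow_zero, div_one, pow_one]
      unfold vk
      rw [mul_div_assoc]
      exact (RM M).mul_mem (rr_int _).1 (hdiv _ (hc1 j j hj hj))) hn1 (by
      rw [← hn 1 hn1]
      unfold vk
      exact mul_ne_zero (hεne _ (hc1 1 1 hn1 hn1)) (hv0 _ (hc1 1 1 hn1 hn1)))
    rw [← hJc, mul_one] at h1
    have h2 : (ℓ : ℝ) ^ 2 * (Fintype.card J : ℝ) = ((Fintype.card J * ℓ ^ 2 : ℕ) : ℝ) := by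
      push_cast
      ring
    rw [h2]
    refine h1.trans (le_of_eq ?_)
    rw [hsJ (fun j => Complex.normSq (vk M ℓ b d ε y w j j χ))]
    refine Finset.sum_congr rfl fun j hj => ?_
    rw [pow_zero, div_one, ← hn j (Finset.mem_filter.1 hj).2]

end Pool.Agent.PP.T12.H13
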